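import Pool.Agent.T2h42.Tree.Main
import Pool.Agent.T2h42.Lat.Gen

/-!
The final form: sums of several elements of a set closed under gcd and lcm.
-/

set_option autoImplicit false

namespace Pool.Agent.T2h42.Tree

open Finset Pool.Agent.TH83.SQ Pool.Agent.N811.IS
open Pool.Agent.TH83.DC (kSum)
open Pool.Agent.T2h42.Lat (kSum_add_ge' kSum_cast_add)
open scoped Pointwise Classical

theorem to_sums (k : ℕ) (hk : 1 ≤ k) (ε : ℝ) (hε : 0 < ε) :
    ∃ ε' : ℝ, 0 < ε' ∧ ε' < 1 / 2 ∧ ∀ C : ℝ, 0 ≤ C → ∃ c : ℝ, 0 < c ∧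
      ∀ A : Finset ℕ, A.Nonempty →
      (∀ B : Finset ℤ, B.Nonempty →
        (1 - ε') * (Real.log A.card + Real.log B.card) - C ≤
          Real.log (((A.image fun a : ℕ => (a : ℤ)) + B).card : ℝ)) →
      ∀ B : Finset ℤ, B.Nonempty →
        c * (A.card : ℝ) ^ ((k : ℝ) - ε) * (B.card : ℝ) ^ (1 - ε) ≤
          ((((Fintype.piFinset fun _ : Fin k => A) ×ˢ B).image
            fun x => (∑ i, (x.1 i : ℤ)) + x.2).card : ℝ) := by
  have hk' : (1 : ℝ) ≤ k := by exact_mod_cast hk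
  have hk2 : (1 : ℝ) ≤ (k : ℝ) ^ 2 := one_le_pow₀ hk'
  set ε' := min (ε / k ^ 2) (1 / 3) with hε'
  have hε'0 : 0 < ε' := lt_min (by positivity) (by norm_num)
  have hε'1 : ε' < 1 / 2 := lt_of_le_of_lt (min_le_right _ _) (by norm_num)
  have hε'ε : ε' * k ^ 2 ≤ ε := by
    have := min_le_left (ε / k ^ 2) (1 / 3)
    rw [← hε', le_div_iff₀ (by positivity)] at this
    exact this
  have hε'k : k * ε' ≤ ε := by nlinarith
  refine ⟨ε', hε'0, hε'1, fun C hC0 => ⟨Real.exp (-(k * C)), Real.exp_pos _, ?_⟩⟩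
  intro A hA h B hB
  have hApos : 0 < A.card := hA.card_pos
  have hL0 : 0 ≤ Real.log A.card := Real.log_natCast_nonneg _
  have hlB : 0 ≤ Real.log B.card := Real.log_natCast_nonneg _
  have hAz : (A.image fun a : ℕ => (a : ℤ)).Nonempty := hA.image _
  have h1 := kSum_add_ge' hAz hL0 hε'0.le (by linarith) hC0 h k B hB
  have hsub := kSum_cast_add k A B
  have hne : (kSum k (A.image fun a : ℕ => (a : ℤ)) + B).Nonempty :=
    (Pool.Agent.TH83.DC.kSum_nonempty k hAz).add hB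
  set T := ((Fintype.piFinset fun _ : Fin k => A) ×ˢ B).image
    fun x => (∑ i, (x.1 i : ℤ)) + x.2 with hT
  have hTne : T.Nonempty := hne.mono hsub
  have h2 : Real.log ((kSum k (A.image fun a : ℕ => (a : ℤ)) + B).card : ℝ) ≤
      Real.log (T.card : ℝ) := by
    apply Real.log_le_log
    · exact_mod_cast hne.card_pos
    · exact_mod_cast Finset.card_le_card hsub
  have h3 : (k - ε) * Real.log A.card ≤ (k - ε' * k ^ 2) * Real.log A.card :=
    mul_le_mul_of_nonneg_right (by linarith) hL0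
  have h5 : (1 - ε) * Real.log B.card ≤ (1 - k * ε') * Real.log B.card :=
    mul_le_mul_of_nonneg_right (by linarith) hlB
  have hA' : (0 : ℝ) < A.card := by exact_mod_cast hApos
  have hB' : (0 : ℝ) < B.card := by exact_mod_cast hB.card_pos
  have hT' : (0 : ℝ) < T.card := by exact_mod_cast hTne.card_pos
  rw [Real.rpow_def_of_pos hA', Real.rpow_def_of_pos hB', ← Real.exp_add, ← Real.exp_add,
    ← Real.le_log_iff_exp_le hT']
  linarith

theorem final {Q : ℕ → Prop} (hDH : DH Q) (k : ℕ) (hk : 1 ≤ k) (ε : ℝ) (hε : 0 < ε) :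
    ∃ c : ℝ, 0 < c ∧ ∀ A : Finset ℕ, Glc A → (∀ a ∈ A, ∀ b ∈ A, a ∣ b → Q (b / a)) →
      ∀ B : Finset ℤ, B.Nonempty →
        c * (A.card : ℝ) ^ ((k : ℝ) - ε) * (B.card : ℝ) ^ (1 - ε) ≤
          ((((Fintype.piFinset fun _ : Fin k => A) ×ˢ B).image
            fun x => (∑ i, (x.1 i : ℤ)) + x.2).card : ℝ) := by
  obtain ⟨ε', hε'0, hε'1, h⟩ := to_sums k hk ε hε
  obtain ⟨c₀, hc₀, h0⟩ := lat_rho hDH (τ := ε') (ε := ε') hε'0 hε'1.le hε'0 (by linarith)
  obtain ⟨c, hc, h1⟩ := h (max (-Real.log c₀) 0) (le_max_right _ _)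
  refine ⟨c, hc, fun A hA hQ => h1 A hA.1 fun B hB => ?_⟩
  have h2 := rho_mul_le (1 - ε') (toInt A) hB
  have hBc : (0 : ℝ) < B.card := by exact_mod_cast hB.card_pos
  have hN : (0 : ℝ) < A.card := by exact_mod_cast hA.1.card_pos
  have h3 : c₀ * (A.card : ℝ) ^ (1 - ε') * (B.card : ℝ) ^ (1 - ε') ≤ ((toInt A + B).card : ℝ) :=
    (mul_le_mul_of_nonneg_right (h0 A hA hQ) (by positivity)).trans h2
  have h4 := Real.log_le_log (by positivity) h3
  rw [Real.log_mul (by positivity) (by positivity), Real.log_mul hc₀.ne' (by positivity),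
    Real.log_rpow hN, Real.log_rpow hBc] at h4
  have h5 : toInt A = A.image fun a : ℕ => (a : ℤ) := by
    ext z; simp [mem_toInt]
  rw [h5] at h4
  have h6 := le_max_left (-Real.log c₀) 0
  refine le_trans ?_ h4
  linarith

/-- the squarefree case of the theorem on dilates -/
theorem dh_squarefree : DH Squarefree := by
  intro δ θ hδ hθ
  obtain ⟨C, hC⟩ := Pool.Agent.T2h42.GD.dilates δ θ hδ hθ
  refine ⟨C, fun W hW hcop X B hX hB hc => ?_⟩
  obtain ⟨s, hs, h⟩ := hC (fun w : ℕ => w) (fun _ => 1) W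
    ⟨fun w hw => (hW w hw).1.ne', fun w hw => by rw [mul_one]; exact (hW w hw).2,
      fun v hv w hw hvw => by rw [mul_one, mul_one]; exact hcop v hv w hw hvw⟩ X B hX hB hc
  refine ⟨s, hs, ?_⟩
  have e : Pool.Agent.T2h42.GD.dm (fun w : ℕ => w) (fun _ => 1) W s = ((∏ w ∈ s, w : ℕ) : ℤ) := by
    unfold Pool.Agent.T2h42.GD.dm
    push_cast
    simp
  rw [e] at h
  exact h

end Pool.Agent.T2h42.Tree
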