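import Pool.Agent.T2h42.Tree.Base
import Pool.Agent.N811.IS.Step
import Pool.Agent.TH83.SQ.Dil
import Pool.Agent.TH83.SQ.DilMain

/-!
Sums with finite sets of positive integers closed under gcd and lcm.
-/

set_option autoImplicit false

namespace Pool.Agent.T2h42.Tree

open Finset Pool.Agent.TH83.SQ Pool.Agent.N811.IS
open scoped Pointwise Classical

/-- the theorem on dilates by products of coprime integers with the property `Q` -/
def DH (Q : ℕ → Prop) : Prop := ∀ δ θ : ℝ, 0 < δ → 0 < θ → ∃ C : ℝ, ∀ W : Finset ℕ,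
  (∀ w ∈ W, 1 < w ∧ Q w) → (∀ v ∈ W, ∀ w ∈ W, v ≠ w → Nat.Coprime v w) →
  ∀ X B : Finset ℤ, X.Nonempty → B.Nonempty →
  θ * (Real.log X.card + Real.log B.card) ≤ W.card →
  ∃ s ⊆ W, (1 - δ) * (Real.log X.card + Real.log B.card) - C ≤
    Real.log ((dil (((∏ w ∈ s, w : ℕ) : ℤ)) X + B).card : ℝ)

/-- the members as integers -/
def toInt (A : Finset ℕ) : Finset ℤ := A.map Nat.castEmbedding

theorem mem_toInt {A : Finset ℕ} {z : ℤ} : z ∈ toInt A ↔ ∃ a ∈ A, (a : ℤ) = z := by
  simp [toInt]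

theorem card_toInt (A : Finset ℕ) : (toInt A).card = A.card := Finset.card_map _

theorem toInt_nonempty {A : Finset ℕ} (h : A.Nonempty) : (toInt A).Nonempty := by
  simpa [toInt] using h

theorem toInt_mono {A B : Finset ℕ} (h : A ⊆ B) : toInt A ⊆ toInt B := by
  intro z hz
  obtain ⟨a, ha, rfl⟩ := mem_toInt.1 hz
  exact mem_toInt.2 ⟨a, h ha, rfl⟩

theorem num_step {ε κ ν : ℝ} (hε : 0 < ε) (hε1 : ε < 1) (hκ : 0 < κ) (hν : 0 < ν)
    (hν1 : ν ≤ κ ^ (1 / ε)) (hν2 : ν ≤ 1 / 2) :
    1 ≤ (1 - ν) ^ (1 - ε) + κ * ν ^ (1 - ε) := by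
  have h1 : 1 - ν ≤ (1 - ν) ^ (1 - ε) := self_le (by linarith) (by linarith) (by linarith)
  have h2 : ν ≤ κ * ν ^ (1 - ε) := by
    rw [Real.rpow_sub hν, Real.rpow_one, ← mul_div_assoc, le_div_iff₀ (by positivity), mul_comm]
    apply mul_le_mul_of_nonneg_right _ hν.le
    have h3 := Real.rpow_le_rpow hν.le hν1 hε.le
    rwa [← Real.rpow_mul hκ.le, one_div_mul_cancel hε.ne', Real.rpow_one] at h3
  linarith

/-- the step in which an atom divides almost all members -/
theorem step_few {A : Finset ℕ} {τ ε c κ ν₀ : ℝ} (hτ : 0 < τ) (hτ2 : τ ≤ 1 / 2) (hε : 0 < ε)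
    (hε1 : ε < 1) (hc : 0 ≤ c) (hκ : κ = 2 ^ τ - 1) (hκ0 : 0 < κ) (hν1 : ν₀ ≤ κ ^ (1 / ε))
    (hν2 : ν₀ ≤ 1 / 2) {p : ℕ} (hA : A.Nonempty)
    (hno : (A.filter fun a => ¬ p ∣ a).Nonempty)
    (hfew : ((A.filter fun a => ¬ p ∣ a).card : ℝ) ≤ ν₀ * A.card)
    (h1 : c * ((A.filter fun a => p ∣ a).card : ℝ) ^ (1 - ε) ≤
      rho (1 - τ) (toInt (A.filter fun a => p ∣ a)))
    (h0 : c * ((A.filter fun a => ¬ p ∣ a).card : ℝ) ^ (1 - ε) ≤
      rho (1 - τ) (toInt (A.filter fun a => ¬ p ∣ a))) :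
    c * (A.card : ℝ) ^ (1 - ε) ≤ rho (1 - τ) (toInt A) := by
  set A₁ := A.filter fun a => p ∣ a with hA₁
  set A₀ := A.filter fun a => ¬ p ∣ a with hA₀
  have hcard : A₁.card + A₀.card = A.card := Finset.card_filter_add_card_filter_not _
  have hcard' : (A₁.card : ℝ) + A₀.card = A.card := by exact_mod_cast hcard
  have hN : (0 : ℝ) < A.card := by exact_mod_cast hA.card_pos
  have hN0 : (0 : ℝ) < A₀.card := by exact_mod_cast hno.card_pos
  have hs := rho_step (θ := 1 - τ) (by linarith) (by linarith) (AddSubgroup.zmultiples (p : ℤ))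
    (A := toInt A) (A₀ := toInt A₀) (A₁ := toInt A₁) (toInt_mono (Finset.filter_subset _ _))
    (toInt_mono (Finset.filter_subset _ _))
    (by
      intro z hz
      obtain ⟨a, ha, rfl⟩ := mem_toInt.1 hz
      rw [Int.mem_zmultiples_iff]
      intro hd
      exact (Finset.mem_filter.1 ha).2 (by exact_mod_cast hd))
    (by
      intro z hz
      obtain ⟨a, ha, rfl⟩ := mem_toInt.1 hz
      rw [Int.mem_zmultiples_iff]
      exact_mod_cast (Finset.mem_filter.1 ha).2)
  have e1 : 1 - (1 - τ) = τ := by ring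
  rw [e1, ← hκ] at hs
  refine le_trans ?_ hs
  set ν : ℝ := A₀.card / A.card with hν
  have hν0 : 0 < ν := div_pos hN0 hN
  have hνle : ν ≤ ν₀ := by rw [hν, div_le_iff₀ hN]; exact hfew
  have hnum := num_step hε hε1 hκ0 hν0 (hνle.trans hν1) (hνle.trans hν2)
  have e2 : (A₀.card : ℝ) = ν * A.card := by rw [hν, div_mul_cancel₀ _ hN.ne']
  have e3 : (A₁.card : ℝ) = (1 - ν) * A.card := by
    have : (A₁.card : ℝ) = A.card - A₀.card := by linarith
    rw [this, e2]; ring
  rw [e3, Real.mul_rpow (by linarith) hN.le] at h1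
  rw [e2, Real.mul_rpow hν0.le hN.le] at h0
  have hP : 0 ≤ c * (A.card : ℝ) ^ (1 - ε) := mul_nonneg hc (Real.rpow_nonneg hN.le _)
  calc c * (A.card : ℝ) ^ (1 - ε) ≤
        c * (A.card : ℝ) ^ (1 - ε) * ((1 - ν) ^ (1 - ε) + κ * ν ^ (1 - ε)) := by
        nlinarith
    _ = c * ((1 - ν) ^ (1 - ε) * (A.card : ℝ) ^ (1 - ε)) +
        κ * (c * (ν ^ (1 - ε) * (A.card : ℝ) ^ (1 - ε))) := by ring
    _ ≤ _ := add_le_add h1 (mul_le_mul_of_nonneg_left h0 hκ0.le)

/-- the step in which no atom divides almost all members -/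
theorem step_many {Q : ℕ → Prop} (hDH : DH Q) {τ ε ν₀ : ℝ} (hτ : 0 < τ) (hτ2 : τ ≤ 1 / 2)
    (hε : 0 < ε) (hε1 : ε < 1) (hν0 : 0 < ν₀) (hν2 : ν₀ ≤ 1 / 2) :
    ∃ c : ℝ, 0 < c ∧ ∀ (A : Finset ℕ) (o : ℕ), Glc A → o ∈ A → (∀ a ∈ A, o ∣ a) →
      (∀ a ∈ A, Q (a / o)) →
      (∀ p, Atom A o p → ν₀ * A.card ≤ (A.filter fun a => ¬ p ∣ a).card) →
      c * (A.card : ℝ) ^ (1 - ε) ≤ rho (1 - τ) (toInt A) := by
  set L : ℝ := Real.log (1 / ν₀) with hL
  have hL0 : 0 < L := Real.log_pos (by rw [lt_div_iff₀ hν0]; linarith)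
  have hLe : Real.log ν₀ = -L := by rw [hL, one_div, Real.log_inv]; ring
  set θ' : ℝ := ε / 2 / L with hθ'
  have hθ'0 : 0 < θ' := by positivity
  set δ : ℝ := min τ (ε / 2) with hδ
  have hδ0 : 0 < δ := lt_min hτ (by linarith)
  have hδτ : δ ≤ τ := min_le_left _ _
  have hδε : δ ≤ ε / 2 := min_le_right _ _
  obtain ⟨C, hC⟩ := hDH δ (θ' / (1 + 1 / τ)) hδ0 (by positivity)
  refine ⟨Real.exp (-(max C 0 + L)), Real.exp_pos _, ?_⟩
  intro A o hA ho hod hQ hall
  have hN : (0 : ℝ) < A.card := by exact_mod_cast hA.1.card_pos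
  have hN1 : (1 : ℝ) ≤ A.card := by exact_mod_cast hA.1.card_pos
  have hlogN : 0 ≤ Real.log A.card := Real.log_nonneg hN1
  have ho0 : 0 < o := hA.pos ho
  -- many atoms
  have hat : Real.log A.card ≤ (atoms A o).card * L := by
    have h1 := hA.avoid_card hν0.le (atoms A o) fun p hp => hall p (mem_atoms.1 hp)
    have h2 : ((avoid A (atoms A o)).card : ℝ) ≤ 1 := by
      have := Finset.card_le_card (hA.avoid_atoms (o := o))
      rw [Finset.card_singleton] at this
      exact_mod_cast this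
    have h3 := Real.log_le_log (by positivity) (h1.trans h2)
    rw [Real.log_mul hN.ne' (by positivity), Real.log_pow, hLe, Real.log_one] at h3
    linarith
  obtain ⟨S, hSat, hSc⟩ : ∃ S ⊆ atoms A o, S.card = ⌈θ' * Real.log A.card⌉₊ := by
    apply Finset.exists_subset_card_eq
    rw [Nat.ceil_le]
    have h1 : θ' * Real.log A.card ≤ Real.log A.card / L := by
      rw [hθ', div_mul_eq_mul_div, div_le_div_iff_of_pos_right hL0]
      nlinarith
    have h2 : Real.log A.card / L ≤ (atoms A o).card := by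
      rw [div_le_iff₀ hL0]; exact hat
    linarith
  have hSA : ∀ p ∈ S, Atom A o p := fun p hp => mem_atoms.1 (hSat hp)
  have hS1 : θ' * Real.log A.card ≤ S.card := by rw [hSc]; exact Nat.le_ceil _
  have hS2 : (S.card : ℝ) ≤ θ' * Real.log A.card + 1 := by
    rw [hSc]; exact (Nat.ceil_lt_add_one (by positivity)).le
  -- the set `X`
  set X := avoid A S with hX
  have hXc := hA.avoid_card hν0.le S fun p hp => hall p (hSA p hp)
  have hXpos : (0 : ℝ) < X.card := lt_of_lt_of_le (by positivity) hXc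
  have hXne : X.Nonempty := by
    rw [← Finset.card_pos]; exact_mod_cast hXpos
  have hXlog : Real.log A.card * (1 - ε / 2) - L ≤ Real.log X.card := by
    have h3 := Real.log_le_log (by positivity) hXc
    rw [Real.log_mul hN.ne' (by positivity), Real.log_pow, hLe] at h3
    have h4 : S.card * L ≤ (θ' * Real.log A.card + 1) * L :=
      mul_le_mul_of_nonneg_right hS2 hL0.le
    have h5 : θ' * L = ε / 2 := by rw [hθ']; field_simp
    have h6 : (θ' * Real.log A.card + 1) * L = ε / 2 * Real.log A.card + L := by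
      calc (θ' * Real.log A.card + 1) * L = (θ' * L) * Real.log A.card + L := by ring
        _ = _ := by rw [h5]
    linarith
  have hXle : Real.log X.card ≤ Real.log A.card :=
    Real.log_le_log hXpos (by exact_mod_cast Finset.card_le_card (avoid_subset S))
  -- the sum sets
  refine le_rho fun B hB => ?_
  have hBc : (0 : ℝ) < B.card := by exact_mod_cast hB.card_pos
  have hB1 : (1 : ℝ) ≤ B.card := by exact_mod_cast hB.card_pos
  have hlogB : 0 ≤ Real.log B.card := Real.log_nonneg hB1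
  have hABn : (toInt A + B).Nonempty := (toInt_nonempty hA.1).add hB
  have hAB : (0 : ℝ) < (toInt A + B).card := by exact_mod_cast hABn.card_pos
  rw [Real.rpow_def_of_pos hN, Real.rpow_def_of_pos hBc, ← Real.exp_add, ← Real.exp_add,
    ← Real.le_log_iff_exp_le hAB]
  have hC0 := le_max_right C 0
  by_cases hbig : Real.log B.card ≤ 1 / τ * Real.log A.card
  · -- small `B`
    set W := S.image fun p => p / o with hW
    have hinj : Set.InjOn (fun p => p / o) (S : Set ℕ) := by
      intro p hp q hq hpq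
      have h1 := Nat.mul_div_cancel' (hod p (hSA p hp).1)
      have h2 := Nat.mul_div_cancel' (hod q (hSA q hq).1)
      simp only at hpq
      rw [← h1, ← h2, hpq]
    have hWc : W.card = S.card := Finset.card_image_of_injOn hinj
    obtain ⟨s, hs, hss⟩ := hC W
      (by
        intro w hw
        obtain ⟨p, hp, rfl⟩ := Finset.mem_image.1 hw
        exact ⟨hA.one_lt ho hod (hSA p hp), hQ p (hSA p hp).1⟩)
      (by
        intro v hv w hw hvw
        obtain ⟨p, hp, rfl⟩ := Finset.mem_image.1 hv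
        obtain ⟨q, hq, rfl⟩ := Finset.mem_image.1 hw
        exact hA.coprime ho hod (hSA p hp) (hSA q hq) fun h => hvw (by rw [h]))
      (toInt X) B (toInt_nonempty hXne) hB
      (by
        rw [card_toInt, hWc]
        refine le_trans ?_ hS1
        rw [div_mul_eq_mul_div, div_le_iff₀ (by positivity), mul_assoc]
        apply mul_le_mul_of_nonneg_left _ hθ'0.le
        calc Real.log X.card + Real.log B.card ≤ Real.log A.card + 1 / τ * Real.log A.card :=
              add_le_add hXle hbig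
          _ = Real.log A.card * (1 + 1 / τ) := by ring)
    rw [card_toInt] at hss
    -- the dilate is a subset of `A`
    have hsub : dil (((∏ w ∈ s, w : ℕ) : ℤ)) (toInt X) ⊆ toInt A := by
      intro z hz
      obtain ⟨y, hy, rfl⟩ := Finset.mem_image.1 hz
      obtain ⟨a, ha, rfl⟩ := mem_toInt.1 hy
      obtain ⟨s', hs', rfl⟩ : ∃ s' ⊆ S, s = s'.image fun p => p / o := by
        refine ⟨S.filter fun p => p / o ∈ s, Finset.filter_subset _ _, ?_⟩
        ext w
        rw [Finset.mem_image]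
        constructor
        · intro hw
          obtain ⟨p, hp, rfl⟩ := Finset.mem_image.1 (hs hw)
          exact ⟨p, Finset.mem_filter.2 ⟨hp, hw⟩, rfl⟩
        · rintro ⟨p, hp, rfl⟩
          exact (Finset.mem_filter.1 hp).2
      have ht := (hA.toggle ho hod hSA ha s' hs').1
      refine mem_toInt.2 ⟨_, ht, ?_⟩
      rw [Finset.prod_image fun p hp q hq h => hinj (hs' hp) (hs' hq) h]
      push_cast
      ring
    have hle : Real.log ((dil (((∏ w ∈ s, w : ℕ) : ℤ)) (toInt X) + B).card : ℝ) ≤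
        Real.log ((toInt A + B).card : ℝ) := by
      have hne : (dil (((∏ w ∈ s, w : ℕ) : ℤ)) (toInt X) + B).Nonempty :=
        (dil_nonempty (toInt_nonempty hXne)).add hB
      apply Real.log_le_log
      · exact_mod_cast hne.card_pos
      · exact_mod_cast Finset.card_le_card (Finset.add_subset_add_right hsub)
    have h7 : (1 - δ) * (Real.log A.card * (1 - ε / 2) - L) ≤ (1 - δ) * Real.log X.card :=
      mul_le_mul_of_nonneg_left hXlog (by linarith)
    have h8 : (1 - τ) * Real.log B.card ≤ (1 - δ) * Real.log B.card :=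
      mul_le_mul_of_nonneg_right (by linarith) hlogB
    have h9 : (1 - ε) * Real.log A.card - L ≤
        (1 - δ) * (Real.log A.card * (1 - ε / 2) - L) := by
      have h10 : 0 ≤ δ * L := by positivity
      have h11 : 0 ≤ δ * (ε / 2) * Real.log A.card := by positivity
      have h12 : δ * Real.log A.card ≤ ε / 2 * Real.log A.card :=
        mul_le_mul_of_nonneg_right hδε hlogN
      nlinarith
    have h13 := le_max_left C 0
    nlinarith
  · push Not at hbig
    have h1 : Real.log B.card ≤ Real.log ((toInt A + B).card : ℝ) := by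
      apply Real.log_le_log hBc
      exact_mod_cast Finset.card_le_card_add_left (toInt_nonempty hA.1)
    have h2 : Real.log A.card ≤ τ * Real.log B.card := by
      rw [one_div_mul_eq_div, div_lt_iff₀ hτ] at hbig
      linarith
    have h3 : 0 ≤ ε * Real.log A.card := by positivity
    nlinarith

/-- **The isoperimetric constant of a lattice.** -/
theorem lat_rho {Q : ℕ → Prop} (hDH : DH Q) {τ ε : ℝ} (hτ : 0 < τ) (hτ2 : τ ≤ 1 / 2)
    (hε : 0 < ε) (hε1 : ε < 1) :
    ∃ c : ℝ, 0 < c ∧ ∀ A : Finset ℕ, Glc A → (∀ a ∈ A, ∀ b ∈ A, a ∣ b → Q (b / a)) →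
      c * (A.card : ℝ) ^ (1 - ε) ≤ rho (1 - τ) (toInt A) := by
  set κ : ℝ := 2 ^ τ - 1 with hκ
  have hκ0 : 0 < κ := by
    have := Real.one_lt_rpow (by norm_num : (1 : ℝ) < 2) hτ
    rw [hκ]; linarith
  set ν₀ : ℝ := min (κ ^ (1 / ε)) (1 / 2) with hν₀
  have hν00 : 0 < ν₀ := lt_min (by positivity) (by norm_num)
  have hν1 : ν₀ ≤ κ ^ (1 / ε) := min_le_left _ _
  have hν2 : ν₀ ≤ 1 / 2 := min_le_right _ _
  obtain ⟨c, hc, h⟩ := step_many hDH hτ hτ2 hε hε1 hν00 hν2
  refine ⟨c, hc, ?_⟩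
  suffices hmain : ∀ n : ℕ, ∀ A : Finset ℕ, A.card ≤ n → Glc A →
      (∀ a ∈ A, ∀ b ∈ A, a ∣ b → Q (b / a)) →
      c * (A.card : ℝ) ^ (1 - ε) ≤ rho (1 - τ) (toInt A) from
    fun A hA hQ => hmain A.card A le_rfl hA hQ
  intro n
  induction n with
  | zero =>
    intro A hAn hA
    have := hA.1.card_pos
    omega
  | succ n ih =>
    intro A hAn hA hQ
    obtain ⟨o, ho, hod⟩ := hA.bot
    by_cases hall : ∀ p, Atom A o p → ν₀ * A.card ≤ (A.filter fun a => ¬ p ∣ a).card
    · exact h A o hA ho hod (fun a ha => hQ o ho a ha (hod a ha)) hall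
    · push Not at hall
      obtain ⟨p, hp, hfew⟩ := hall
      have hno := hA.no ho hod hp
      have hyes := hA.yes hp.1
      have hcard : (A.filter fun a => p ∣ a).card + (A.filter fun a => ¬ p ∣ a).card = A.card :=
        Finset.card_filter_add_card_filter_not _
      have h1 := hno.1.card_pos
      have h2 := hyes.1.card_pos
      refine step_few hτ hτ2 hε hε1 hc.le hκ hκ0 hν1 hν2 hA.1 hno.1 hfew.le ?_ ?_
      · exact ih _ (by omega) hyes fun a ha b hb hab =>
          hQ a (Finset.mem_filter.1 ha).1 b (Finset.mem_filter.1 hb).1 hab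
      · exact ih _ (by omega) hno fun a ha b hb hab =>
          hQ a (Finset.mem_filter.1 ha).1 b (Finset.mem_filter.1 hb).1 hab

end Pool.Agent.T2h42.Tree
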