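import Mathlib

/-!
Atoms of finite sets of positive integers closed under gcd and lcm.
-/

set_option autoImplicit false

namespace Pool.Agent.T2h42.Tree

open Finset
open scoped Classical

/-- a nonempty finite set of positive integers closed under gcd and lcm -/
def Glc (A : Finset ℕ) : Prop :=
  A.Nonempty ∧ (∀ a ∈ A, 0 < a) ∧ ∀ a ∈ A, ∀ b ∈ A, Nat.gcd a b ∈ A ∧ Nat.lcm a b ∈ A

theorem Glc.bot {A : Finset ℕ} (h : Glc A) : ∃ o ∈ A, ∀ a ∈ A, o ∣ a := by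
  obtain ⟨h1, h2, h3⟩ := h
  refine ⟨A.min' h1, A.min'_mem h1, fun a ha => ?_⟩
  have hg := (h3 _ (A.min'_mem h1) a ha).1
  have h4 : A.min' h1 ≤ Nat.gcd (A.min' h1) a := A.min'_le _ hg
  have h5 : Nat.gcd (A.min' h1) a ≤ A.min' h1 :=
    Nat.le_of_dvd (h2 _ (A.min'_mem h1)) (Nat.gcd_dvd_left _ _)
  have h6 : Nat.gcd (A.min' h1) a = A.min' h1 := le_antisymm h5 h4
  rw [← h6]
  exact Nat.gcd_dvd_right _ _

/-- the atoms -/
def Atom (A : Finset ℕ) (o p : ℕ) : Prop := p ∈ A ∧ p ≠ o ∧ ∀ c ∈ A, c ∣ p → c = o ∨ c = p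

theorem Glc.exists_atom {A : Finset ℕ} (h : Glc A) {o a : ℕ} (ha : a ∈ A)
    (hao : a ≠ o) : ∃ p, Atom A o p ∧ p ∣ a := by
  set F := A.filter fun c => c ∣ a ∧ c ≠ o with hF
  have hFn : F.Nonempty := ⟨a, by rw [hF, Finset.mem_filter]; exact ⟨ha, dvd_refl _, hao⟩⟩
  have hm := F.min'_mem hFn
  set p := F.min' hFn with hp
  rw [hF, Finset.mem_filter] at hm
  refine ⟨p, ⟨hm.1, hm.2.2, fun c hc hcp => ?_⟩, hm.2.1⟩
  by_cases hco : c = o
  · exact Or.inl hco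
  · right
    have h1 : c ∈ F := by
      rw [hF, Finset.mem_filter]
      exact ⟨hc, hcp.trans hm.2.1, hco⟩
    have h2 : p ≤ c := F.min'_le c h1
    exact le_antisymm (Nat.le_of_dvd (h.2.1 _ hm.1) hcp) h2

section
variable {A : Finset ℕ} {o : ℕ}

theorem Glc.pos (h : Glc A) {a : ℕ} (ha : a ∈ A) : 0 < a := h.2.1 a ha

theorem Glc.not_dvd_bot (h : Glc A) (ho : o ∈ A) (hod : ∀ a ∈ A, o ∣ a) {p : ℕ}
    (hp : Atom A o p) : ¬ p ∣ o := fun hd =>
  hp.2.1 (Nat.dvd_antisymm hd (hod p hp.1))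

theorem Glc.gcd_eq (h : Glc A) {a p : ℕ} (ha : a ∈ A)
    (hp : Atom A o p) (hpa : ¬ p ∣ a) : Nat.gcd p a = o := by
  rcases hp.2.2 _ (h.2.2 p hp.1 a ha).1 (Nat.gcd_dvd_left _ _) with h1 | h1
  · exact h1
  · exact absurd (Nat.gcd_eq_left_iff_dvd.1 h1) hpa

theorem Glc.atom_not_dvd (hod : ∀ a ∈ A, o ∣ a) {p q : ℕ} (hp : Atom A o p)
    (hq : Atom A o q) (hpq : p ≠ q) : ¬ p ∣ q := by
  intro hd
  rcases hq.2.2 p hp.1 hd with h1 | h1
  · exact hp.2.1 h1
  · exact hpq h1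

/-- an atom dividing a least common multiple divides one of the two numbers -/
theorem Glc.not_dvd_lcm (h : Glc A) (ho : o ∈ A) (hod : ∀ a ∈ A, o ∣ a) {p a b : ℕ}
    (hp : Atom A o p) (ha : a ∈ A) (hb : b ∈ A) (hpa : ¬ p ∣ a) (hpb : ¬ p ∣ b) :
    ¬ p ∣ Nat.lcm a b := by
  intro hd
  have ho0 : 0 < o := h.pos ho
  obtain ⟨w, rfl⟩ := hod p hp.1
  obtain ⟨a', rfl⟩ := hod a ha
  obtain ⟨b', rfl⟩ := hod b hb
  have g1 := h.gcd_eq ha hp hpa
  have g2 := h.gcd_eq hb hp hpb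
  rw [Nat.gcd_mul_left] at g1 g2
  have c1 : Nat.gcd w a' = 1 := by
    have : o * Nat.gcd w a' = o * 1 := by rw [g1, mul_one]
    exact Nat.eq_of_mul_eq_mul_left ho0 this
  have c2 : Nat.gcd w b' = 1 := by
    have : o * Nat.gcd w b' = o * 1 := by rw [g2, mul_one]
    exact Nat.eq_of_mul_eq_mul_left ho0 this
  rw [Nat.lcm_mul_left] at hd
  have h3 : w ∣ Nat.lcm a' b' := Nat.dvd_of_mul_dvd_mul_left ho0 hd
  have h4 : w ∣ a' * b' := h3.trans (Nat.lcm_dvd_mul _ _)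
  have h5 : Nat.Coprime w (a' * b') := Nat.Coprime.mul_right c1 c2
  have h6 : w = 1 := Nat.Coprime.eq_one_of_dvd h5 h4
  exact hp.2.1 (by rw [h6, mul_one])

/-- the two parts -/
theorem Glc.yes (h : Glc A) {p : ℕ} (hp : p ∈ A) : Glc (A.filter fun a => p ∣ a) := by
  refine ⟨⟨p, by simp [hp]⟩, fun a ha => h.pos (Finset.mem_filter.1 ha).1, ?_⟩
  intro a ha b hb
  rw [Finset.mem_filter] at ha hb
  rw [Finset.mem_filter, Finset.mem_filter]
  exact ⟨⟨(h.2.2 a ha.1 b hb.1).1, Nat.dvd_gcd ha.2 hb.2⟩,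
    ⟨(h.2.2 a ha.1 b hb.1).2, ha.2.trans (Nat.dvd_lcm_left _ _)⟩⟩

theorem Glc.no (h : Glc A) (ho : o ∈ A) (hod : ∀ a ∈ A, o ∣ a) {p : ℕ} (hp : Atom A o p) :
    Glc (A.filter fun a => ¬ p ∣ a) := by
  refine ⟨⟨o, by rw [Finset.mem_filter]; exact ⟨ho, h.not_dvd_bot ho hod hp⟩⟩,
    fun a ha => h.pos (Finset.mem_filter.1 ha).1, ?_⟩
  intro a ha b hb
  rw [Finset.mem_filter] at ha hb
  rw [Finset.mem_filter, Finset.mem_filter]
  exact ⟨⟨(h.2.2 a ha.1 b hb.1).1, fun hd => ha.2 (hd.trans (Nat.gcd_dvd_left _ _))⟩,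
    ⟨(h.2.2 a ha.1 b hb.1).2, h.not_dvd_lcm ho hod hp ha.1 hb.1 ha.2 hb.2⟩⟩

/-- the members divisible by no member of `T` -/
def avoid (A T : Finset ℕ) : Finset ℕ := A.filter fun a => ∀ p ∈ T, ¬ p ∣ a

theorem mem_avoid {T : Finset ℕ} {a : ℕ} : a ∈ avoid A T ↔ a ∈ A ∧ ∀ p ∈ T, ¬ p ∣ a := by
  rw [avoid, Finset.mem_filter]

theorem avoid_empty : avoid A ∅ = A := by
  ext a; simp [mem_avoid]

theorem avoid_subset (T : Finset ℕ) : avoid A T ⊆ A := Finset.filter_subset _ _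

/-- multiplication by the weights of atoms -/
theorem Glc.toggle (h : Glc A) (ho : o ∈ A) (hod : ∀ a ∈ A, o ∣ a) {T : Finset ℕ}
    (hT : ∀ p ∈ T, Atom A o p) {a : ℕ} (ha : a ∈ avoid A T) :
    ∀ s ⊆ T, a * ∏ p ∈ s, p / o ∈ A ∧ ∀ p ∈ T, p ∉ s → ¬ p ∣ a * ∏ p ∈ s, p / o := by
  have ho0 : 0 < o := h.pos ho
  rw [mem_avoid] at ha
  intro s
  induction s using Finset.induction_on with
  | empty => intro _; simpa using ha
  | insert q s hqs ih =>
    intro hs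
    obtain ⟨i1, i2⟩ := ih ((Finset.subset_insert _ _).trans hs)
    have hqT : q ∈ T := hs (Finset.mem_insert_self _ _)
    have hq := hT q hqT
    set b := a * ∏ p ∈ s, p / o with hb
    have hqb : ¬ q ∣ b := i2 q hqT hqs
    have hg := h.gcd_eq i1 hq hqb
    have hl : Nat.lcm q b = a * ∏ p ∈ insert q s, p / o := by
      rw [Finset.prod_insert hqs]
      have h1 : Nat.gcd q b * Nat.lcm q b = q * b := Nat.gcd_mul_lcm q b
      rw [hg] at h1
      have h2 : o * (a * (q / o * ∏ p ∈ s, p / o)) = q * b := by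
        have h3 : o * (q / o) = q := Nat.mul_div_cancel' (hod q hq.1)
        calc o * (a * (q / o * ∏ p ∈ s, p / o)) = (o * (q / o)) * (a * ∏ p ∈ s, p / o) := by ring
          _ = q * b := by rw [h3]
      exact Nat.eq_of_mul_eq_mul_left ho0 (h1.trans h2.symm)
    rw [← hl]
    refine ⟨(h.2.2 q hq.1 b i1).2, fun p hp hps => ?_⟩
    rw [Finset.mem_insert, not_or] at hps
    exact h.not_dvd_lcm ho hod (hT p hp) hq.1 i1 (Glc.atom_not_dvd hod (hT p hp) hq hps.1)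
      (i2 p hp hps.2)

/-- the weights of the atoms are pairwise coprime -/
theorem Glc.coprime (h : Glc A) (ho : o ∈ A) (hod : ∀ a ∈ A, o ∣ a) {p q : ℕ} (hp : Atom A o p)
    (hq : Atom A o q) (hpq : p ≠ q) : Nat.Coprime (p / o) (q / o) := by
  have ho0 : 0 < o := h.pos ho
  have hg := h.gcd_eq hq.1 hp (Glc.atom_not_dvd hod hp hq hpq)
  have h1 := Nat.gcd_div (hod p hp.1) (hod q hq.1)
  unfold Nat.Coprime
  rw [h1, hg, Nat.div_self ho0]

theorem Glc.one_lt (h : Glc A) (ho : o ∈ A) (hod : ∀ a ∈ A, o ∣ a) {p : ℕ} (hp : Atom A o p) :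
    1 < p / o := by
  have ho0 : 0 < o := h.pos ho
  obtain ⟨w, rfl⟩ := hod p hp.1
  rw [Nat.mul_div_cancel_left _ ho0]
  have h1 := h.pos hp.1
  have h2 : 0 < w := Nat.pos_of_ne_zero fun h0 => by rw [h0, mul_zero] at h1; omega
  have h3 : w ≠ 1 := fun h1 => hp.2.1 (by rw [h1, mul_one])
  omega

/-- the exponents of the prime factors -/
def ex (a : ℕ) : ℕ → ℕ := fun q => a.factorization q

theorem ex_inj {a b : ℕ} (ha : a ≠ 0) (hb : b ≠ 0) (h : ex a = ex b) : a = b :=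
  Nat.eq_of_factorization_eq ha hb fun q => congrFun h q

theorem ex_gcd {a b : ℕ} (ha : a ≠ 0) (hb : b ≠ 0) : ex (Nat.gcd a b) = ex a ⊓ ex b := by
  funext q
  show (Nat.gcd a b).factorization q = _
  rw [Nat.factorization_gcd ha hb]
  rfl

theorem ex_lcm {a b : ℕ} (ha : a ≠ 0) (hb : b ≠ 0) : ex (Nat.lcm a b) = ex a ⊔ ex b := by
  funext q
  show (Nat.lcm a b).factorization q = _
  rw [Nat.factorization_lcm ha hb]
  rfl

/-- two families of members closed under divisors within `A` are positively correlated -/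
theorem Glc.corr (h : Glc A) {F G : Finset ℕ} (hF : F ⊆ A) (hG : G ⊆ A)
    (hFd : ∀ a ∈ F, ∀ b ∈ A, b ∣ a → b ∈ F) (hGd : ∀ a ∈ G, ∀ b ∈ A, b ∣ a → b ∈ G) :
    F.card * G.card ≤ (F ∩ G).card * A.card := by
  have hinj : ∀ S ⊆ A, (S.image ex).card = S.card := fun S hS =>
    Finset.card_image_of_injOn fun a ha b hb hab =>
      ex_inj (h.pos (hS ha)).ne' (h.pos (hS hb)).ne' hab
  have h1 := Finset.le_card_infs_mul_card_sups (F.image ex) (G.image ex)
  rw [hinj F hF, hinj G hG] at h1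
  refine h1.trans (Nat.mul_le_mul ?_ ?_)
  · rw [← hinj (F ∩ G) (Finset.inter_subset_left.trans hF)]
    apply Finset.card_le_card
    intro z hz
    obtain ⟨u, hu, v, hv, rfl⟩ := Finset.mem_infs.1 hz
    obtain ⟨a, ha, rfl⟩ := Finset.mem_image.1 hu
    obtain ⟨b, hb, rfl⟩ := Finset.mem_image.1 hv
    have hg := (h.2.2 a (hF ha) b (hG hb)).1
    refine Finset.mem_image.2 ⟨Nat.gcd a b, Finset.mem_inter.2
      ⟨hFd a ha _ hg (Nat.gcd_dvd_left _ _), hGd b hb _ hg (Nat.gcd_dvd_right _ _)⟩,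
      ex_gcd (h.pos (hF ha)).ne' (h.pos (hG hb)).ne'⟩
  · rw [← hinj A (Finset.Subset.refl _)]
    apply Finset.card_le_card
    intro z hz
    obtain ⟨u, hu, v, hv, rfl⟩ := Finset.mem_sups.1 hz
    obtain ⟨a, ha, rfl⟩ := Finset.mem_image.1 hu
    obtain ⟨b, hb, rfl⟩ := Finset.mem_image.1 hv
    exact Finset.mem_image.2 ⟨Nat.lcm a b, (h.2.2 a (hF ha) b (hG hb)).2,
      ex_lcm (h.pos (hF ha)).ne' (h.pos (hG hb)).ne'⟩

theorem avoid_down {T : Finset ℕ} : ∀ a ∈ avoid A T, ∀ b ∈ A, b ∣ a → b ∈ avoid A T := by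
  intro a ha b hb hba
  rw [mem_avoid] at ha ⊢
  exact ⟨hb, fun p hp hpb => ha.2 p hp (hpb.trans hba)⟩

/-- many members avoid all members of `T` -/
theorem Glc.avoid_card (h : Glc A) {ν : ℝ} (hν0 : 0 ≤ ν) (T : Finset ℕ)
    (hT : ∀ p ∈ T, ν * A.card ≤ (A.filter fun a => ¬ p ∣ a).card) :
    (A.card : ℝ) * ν ^ T.card ≤ (avoid A T).card := by
  have hA0 : (0 : ℝ) < A.card := by exact_mod_cast h.1.card_pos
  induction T using Finset.induction_on with
  | empty => rw [avoid_empty]; simp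
  | insert p T hpT ih =>
    have i1 := ih fun q hq => hT q (Finset.mem_insert_of_mem hq)
    have h1 : A.filter (fun a => ¬ p ∣ a) = avoid A {p} := by
      ext a; simp [mem_avoid]
    have h2 := hT p (Finset.mem_insert_self _ _)
    rw [h1] at h2
    have h3 := h.corr (avoid_subset T) (avoid_subset {p}) avoid_down avoid_down
    have h4 : avoid A T ∩ avoid A {p} = avoid A (insert p T) := by
      ext a
      simp only [Finset.mem_inter, mem_avoid, Finset.mem_singleton, forall_eq,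
        Finset.forall_mem_insert]
      tauto
    rw [h4] at h3
    have h5 : ((avoid A T).card : ℝ) * (avoid A {p}).card ≤
        (avoid A (insert p T)).card * A.card := by exact_mod_cast h3
    rw [Finset.card_insert_of_notMem hpT, pow_succ]
    have h6 : (A.card : ℝ) * ν ^ T.card * (ν * A.card) ≤
        (avoid A (insert p T)).card * A.card := by
      refine le_trans (mul_le_mul i1 h2 (by positivity) (Nat.cast_nonneg _)) h5
    have h7 : (A.card : ℝ) * (ν ^ T.card * ν) * A.card ≤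
        (avoid A (insert p T)).card * A.card := by
      calc (A.card : ℝ) * (ν ^ T.card * ν) * A.card = (A.card : ℝ) * ν ^ T.card * (ν * A.card) := by
            ring
        _ ≤ _ := h6
    exact le_of_mul_le_mul_right h7 hA0

/-- the set of atoms -/
noncomputable def atoms (A : Finset ℕ) (o : ℕ) : Finset ℕ := A.filter fun p => Atom A o p

theorem mem_atoms {p : ℕ} : p ∈ atoms A o ↔ Atom A o p := by
  rw [atoms, Finset.mem_filter]
  exact ⟨fun h => h.2, fun h => ⟨h.1, h⟩⟩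

theorem Glc.avoid_atoms (h : Glc A) : avoid A (atoms A o) ⊆ {o} := by
  intro a ha
  rw [mem_avoid] at ha
  rw [Finset.mem_singleton]
  by_contra hne
  obtain ⟨p, hp, hpa⟩ := h.exists_atom ha.1 hne
  exact ha.2 p (mem_atoms.2 hp) hpa

end

end Pool.Agent.T2h42.Tree
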